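import Mathlib
import Pool.Agent.R814.PHJ.Base

set_option autoImplicit false

/-!
# Frequencies of pairs `A`, `A ∪ γ^d` in a family of subsets of `[N]^d`
-/

namespace Pool.Agent.N630.PHC

open Finset

/-- `cube d γ` is `γ^d`, the set of all `d`-tuples with entries in `γ`. -/
def cube {N : ℕ} (d : ℕ) (γ : Finset (Fin N)) : Finset (Fin d → Fin N) :=
  Fintype.piFinset (fun _ : Fin d => γ)

open Classical in
/-- all pairs `(γ, A)` of a set `γ ⊆ [N]` with `s` elements and a set `A ⊆ [N]^d` with
`A ∩ γ^d = ∅` -/
noncomputable def pairs (N d s : ℕ) : Finset (Finset (Fin N) × Finset (Fin d → Fin N)) :=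
  univ.filter (fun p => p.1.card = s ∧ Disjoint p.2 (cube d p.1))

open Classical in
/-- the proportion of the pairs `(γ, A)` with `|γ| = s` and `A ∩ γ^d = ∅` for which `A` and
`A ∪ γ^d` belong to `S` -/
noncomputable def freq {N d : ℕ} (s : ℕ) (S : Finset (Finset (Fin d → Fin N))) : ℝ :=
  (((pairs N d s).filter (fun p => p.2 ∈ S ∧ p.2 ∪ cube d p.1 ∈ S)).card : ℝ)
    / (pairs N d s).card

open Classical in
/-- the number of sets `A` disjoint from `γ^d` for which `A` and `A ∪ γ^d` belong to `S` -/
noncomputable def cnt {N d : ℕ} (S : Finset (Finset (Fin d → Fin N))) (γ : Finset (Fin N)) : ℕ :=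
  (univ.filter (fun A : Finset (Fin d → Fin N) =>
    Disjoint A (cube d γ) ∧ A ∈ S ∧ A ∪ cube d γ ∈ S)).card

lemma card_cube {N : ℕ} (d : ℕ) (γ : Finset (Fin N)) : (cube d γ).card = γ.card ^ d := by
  unfold cube
  rw [Fintype.card_piFinset]
  simp

lemma card_disj {E : Type} [Fintype E] [DecidableEq E] (C : Finset E) :
    (univ.filter (fun A : Finset E => Disjoint A C)).card = 2 ^ (Fintype.card E - C.card) := by
  have h : (univ.filter (fun A : Finset E => Disjoint A C)) = Cᶜ.powerset := by
    ext A
    simp only [mem_filter, mem_univ, true_and, mem_powerset]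
    constructor
    · intro h x hx
      rw [mem_compl]
      exact Finset.disjoint_left.1 h hx
    · intro h
      rw [Finset.disjoint_left]
      intro x hx
      exact mem_compl.1 (h hx)
  rw [h, card_powerset, card_compl]

open Classical in
lemma card_prod {E : Type} [Fintype E] {N : ℕ} (s : ℕ) (P : Finset (Fin N) → Finset E → Prop) :
    (univ.filter (fun p : Finset (Fin N) × Finset E => p.1.card = s ∧ P p.1 p.2)).card
      = ∑ γ ∈ powersetCard s (univ : Finset (Fin N)), (univ.filter (P γ)).card := by
  rw [card_filter, Fintype.sum_prod_type, powersetCard_eq_filter, powerset_univ, sum_filter]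
  refine sum_congr rfl fun γ _ => ?_
  by_cases h : γ.card = s
  · rw [if_pos h, card_filter]
    refine sum_congr rfl fun A _ => ?_
    by_cases h' : P γ A
    · rw [if_pos ⟨h, h'⟩, if_pos h']
    · rw [if_neg (fun hh => h' hh.2), if_neg h']
  · rw [if_neg h]
    refine sum_eq_zero fun A _ => ?_
    rw [if_neg (fun hh => h hh.1)]

open Classical in
lemma pairs_card (N d s : ℕ) : (pairs N d s).card = N.choose s * 2 ^ (N ^ d - s ^ d) := by
  have h0 : (pairs N d s).card = ∑ γ ∈ powersetCard s (univ : Finset (Fin N)),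
      (univ.filter (fun A : Finset (Fin d → Fin N) => Disjoint A (cube d γ))).card := by
    unfold pairs
    convert card_prod s (fun γ (A : Finset (Fin d → Fin N)) => Disjoint A (cube d γ)) using 2
    · ext p; simp
    · congr 1; ext A; simp
  rw [h0]
  have h2 : ∀ γ ∈ powersetCard s (univ : Finset (Fin N)),
      (univ.filter (fun A : Finset (Fin d → Fin N) => Disjoint A (cube d γ))).card
        = 2 ^ (N ^ d - s ^ d) := by
    intro γ hγ
    rw [mem_powersetCard] at hγ
    have h3 := card_disj (cube d γ)
    rw [card_cube, hγ.2, Fintype.card_fun, Fintype.card_fin, Fintype.card_fin] at h3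
    refine Eq.trans ?_ h3
    apply congrArg Finset.card
    ext A; simp
  rw [sum_congr rfl h2, sum_const, card_powersetCard, smul_eq_mul]
  simp

open Classical in
lemma inside_card {N d : ℕ} (s : ℕ) (S : Finset (Finset (Fin d → Fin N))) :
    ((pairs N d s).filter (fun p => p.2 ∈ S ∧ p.2 ∪ cube d p.1 ∈ S)).card
      = ∑ γ ∈ powersetCard s (univ : Finset (Fin N)), cnt S γ := by
  unfold pairs cnt
  rw [filter_filter]
  simp only [and_assoc]
  convert card_prod s (fun γ A => Disjoint A (cube d γ) ∧ A ∈ S ∧ A ∪ cube d γ ∈ S) using 2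
  · ext p; simp
  · congr 1; ext A; simp

lemma freq_eq {N d : ℕ} (s : ℕ) (S : Finset (Finset (Fin d → Fin N))) :
    freq s S = (∑ γ ∈ powersetCard s (univ : Finset (Fin N)), (cnt S γ : ℝ))
      / ((N.choose s : ℝ) * 2 ^ (N ^ d - s ^ d)) := by
  unfold freq
  rw [inside_card, pairs_card]
  push_cast
  rfl

lemma freq_nonneg {N d : ℕ} (s : ℕ) (S : Finset (Finset (Fin d → Fin N))) : 0 ≤ freq s S := by
  unfold freq; positivity

end Pool.Agent.N630.PHC
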