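import Mathlib
import Pool.Agent.N630.PHC.Def

set_option autoImplicit false

/-!
# Families with few pairs
-/

namespace Pool.Agent.N630.PHC

open Finset

/-! ### The form of degree `d` which is one off the origin -/

/-- linear forms -/
def lin {d : ℕ} (k t : Fin d) (u : Fin d → ZMod 2) : ZMod 2 := if t < k then u k + u t else u k

/-- the form of degree `d` -/
def qf {d : ℕ} (u : Fin d → ZMod 2) : ZMod 2 := ∑ k, ∏ t, lin k t u

lemma z2 (a : ZMod 2) : a = 0 ∨ a = 1 := by revert a; decide

lemma qf_zero {d : ℕ} : qf (0 : Fin d → ZMod 2) = 0 := by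
  unfold qf
  refine sum_eq_zero fun k _ => prod_eq_zero (mem_univ k) ?_
  simp [lin]

lemma qf_ne {d : ℕ} {u : Fin d → ZMod 2} (hu : u ≠ 0) : qf u = 1 := by
  classical
  have hne : (univ.filter (fun k => u k ≠ 0)).Nonempty := by
    by_contra h
    rw [not_nonempty_iff_eq_empty] at h
    apply hu
    funext k
    by_contra hk
    have : k ∈ univ.filter (fun k => u k ≠ 0) := mem_filter.2 ⟨mem_univ _, hk⟩
    rw [h] at this
    exact notMem_empty _ this
  set k₀ := (univ.filter (fun k => u k ≠ 0)).min' hne with hk₀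
  have h0 : u k₀ ≠ 0 := (mem_filter.1 (min'_mem _ hne)).2
  have h1 : u k₀ = 1 := (z2 _).resolve_left h0
  have hlt : ∀ t, t < k₀ → u t = 0 := by
    intro t ht
    by_contra hh
    have := min'_le _ t (mem_filter.2 ⟨mem_univ _, hh⟩ : t ∈ univ.filter (fun k => u k ≠ 0))
    exact absurd this (not_le.2 ht)
  unfold qf
  rw [sum_eq_single k₀]
  · refine prod_eq_one fun t _ => ?_
    unfold lin
    split_ifs with h
    · rw [h1, hlt t h, add_zero]
    · exact h1
  · intro k _ hk
    rcases z2 (u k) with h | h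
    · refine prod_eq_zero (mem_univ k) ?_
      simp [lin, h]
    · have hkk : k₀ < k := by
        refine lt_of_le_of_ne ?_ (Ne.symm hk)
        refine min'_le _ k (mem_filter.2 ⟨mem_univ _, ?_⟩)
        rw [h]; decide
      refine prod_eq_zero (mem_univ k₀) ?_
      unfold lin
      rw [if_pos hkk, h, h1]
      decide
  · intro h
    exact absurd (mem_univ _) h

/-- the weight of a cell -/
def th {d N : ℕ} (x : Fin N → Fin d → ZMod 2) (c : Fin d → Fin N) : ZMod 2 :=
  ∑ k, ∏ t, lin k t (x (c t))

lemma lin_sum {d N : ℕ} (k t : Fin d) (x : Fin N → Fin d → ZMod 2) (γ : Finset (Fin N)) :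
    ∑ i ∈ γ, lin k t (x i) = lin k t (∑ i ∈ γ, x i) := by
  unfold lin
  split_ifs
  · rw [sum_add_distrib, Finset.sum_apply, Finset.sum_apply]
  · rw [Finset.sum_apply]

lemma sum_cube {d N : ℕ} (x : Fin N → Fin d → ZMod 2) (γ : Finset (Fin N)) :
    ∑ c ∈ cube d γ, th x c = qf (∑ i ∈ γ, x i) := by
  classical
  unfold th qf cube
  rw [sum_comm]
  refine sum_congr rfl fun k _ => ?_
  rw [← Finset.prod_univ_sum (fun _ : Fin d => γ) (fun t i => lin k t (x i))]
  exact prod_congr rfl fun t _ => lin_sum k t x γ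

lemma th_const {d N : ℕ} (x : Fin N → Fin d → ZMod 2) (i : Fin N) :
    th x (fun _ => i) = qf (x i) := rfl

/-! ### Counting -/

lemma sum_symm {E : Type} [Fintype E] [DecidableEq E] (f : E → ZMod 2) (A B : Finset E) :
    ∑ c ∈ symmDiff A B, f c = ∑ c ∈ A, f c + ∑ c ∈ B, f c := by
  have h : ∀ X : Finset E, ∑ c ∈ X, f c = ∑ c, if c ∈ X then f c else 0 := by
    intro X
    rw [← sum_filter]
    congr 1
    ext; simp
  rw [h, h A, h B, ← sum_add_distrib]
  refine sum_congr rfl fun c _ => ?_
  by_cases a : c ∈ A <;> by_cases b : c ∈ B <;>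
    simp [Finset.mem_symmDiff, a, b, CharTwo.add_self_eq_zero]

lemma half {E : Type} [Fintype E] [DecidableEq E] {r : ℕ} (θ : Fin r → E → ZMod 2) (δ : Fin r → E)
    (hδ : ∀ j j', θ j (δ j') = if j = j' then 1 else 0) (C : Finset E) (hC : ∀ j, δ j ∉ C) :
    (univ.filter (fun A : Finset E => Disjoint A C ∧ ∀ j, ∑ c ∈ A, θ j c = 0)).card * 2 ^ r
      = (univ.filter (fun A : Finset E => Disjoint A C)).card := by
  have hinj : Function.Injective δ := by
    intro j j' h
    have h1 := hδ j j'
    rw [← h, hδ j j, if_pos rfl] at h1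
    by_contra hne
    rw [if_neg hne] at h1
    exact absurd h1 (by decide)
  let f : Finset E → (Fin r → ZMod 2) := fun A j => ∑ c ∈ A, θ j c
  let B : (Fin r → ZMod 2) → Finset E := fun b => (univ.filter (fun j => b j ≠ 0)).image δ
  have hB : ∀ b, f (B b) = b := by
    intro b
    funext j
    change ∑ c ∈ (univ.filter (fun j => b j ≠ 0)).image δ, θ j c = b j
    rw [sum_image (fun _ _ _ _ h => hinj h)]
    simp only [hδ]
    rw [sum_ite_eq]
    rcases z2 (b j) with h | h
    · simp [h]
    · simp [h]
  have hf : ∀ A b, f (symmDiff A (B b)) = f A + b := by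
    intro A b
    funext j
    have h1 : f (symmDiff A (B b)) j = f A j + f (B b) j := sum_symm (θ j) A (B b)
    rw [h1, hB]
    rfl
  have hdis : ∀ A b, Disjoint A C → Disjoint (symmDiff A (B b)) C := by
    intro A b hA
    rw [Finset.disjoint_left] at hA ⊢
    intro x hx
    rw [Finset.mem_symmDiff] at hx
    rcases hx with hx | hx
    · exact hA hx.1
    · have := hx.1
      change x ∈ (univ.filter (fun j => b j ≠ 0)).image δ at this
      rw [mem_image] at this
      obtain ⟨j, -, rfl⟩ := this
      exact hC j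
  have hfib : ∀ b : Fin r → ZMod 2,
      ((univ.filter (fun A : Finset E => Disjoint A C)).filter (fun A => f A = b)).card
      = (univ.filter (fun A : Finset E => Disjoint A C ∧ ∀ j, ∑ c ∈ A, θ j c = 0)).card := by
    intro b
    refine card_bij' (fun A _ => symmDiff A (B b)) (fun A _ => symmDiff A (B b)) ?_ ?_ ?_ ?_
    · intro A hA
      rw [mem_filter, mem_filter] at hA
      rw [mem_filter]
      refine ⟨mem_univ _, hdis A b hA.1.2, fun j => ?_⟩
      have h1 := congrFun (hf A b) j
      rw [hA.2] at h1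
      have h2 : (b + b) j = 0 := by
        rw [Pi.add_apply]; exact CharTwo.add_self_eq_zero _
      rw [h2] at h1
      exact h1
    · intro A hA
      rw [mem_filter] at hA
      rw [mem_filter, mem_filter]
      refine ⟨⟨mem_univ _, hdis A b hA.2.1⟩, ?_⟩
      have h0 : f A = 0 := funext fun j => hA.2.2 j
      rw [hf, h0, zero_add]
    · intro A _
      rw [symmDiff_symmDiff_cancel_right]
    · intro A _
      rw [symmDiff_symmDiff_cancel_right]
  have hcard : (univ.filter (fun A : Finset E => Disjoint A C)).card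
      = ∑ b : Fin r → ZMod 2,
        ((univ.filter (fun A : Finset E => Disjoint A C)).filter (fun A => f A = b)).card :=
    card_eq_sum_card_fiberwise (fun A _ => mem_coe.2 (mem_univ _))
  rw [hcard, sum_congr rfl (fun b _ => hfib b), sum_const, smul_eq_mul, mul_comm]
  congr 1
  simp

end Pool.Agent.N630.PHC
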