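import Mathlib

set_option autoImplicit false
set_option linter.unusedSectionVars false

/-!
# Second moment: zero sums in a random sequence in a finite abelian group
-/

namespace Pool.Agent.N630.PHC

open Finset

lemma card_ker {Ω G : Type} [AddCommGroup Ω] [AddCommGroup G] [Fintype Ω] [Fintype G]
    [DecidableEq G] (F : Ω →+ G) (hF : Function.Surjective F) :
    (univ.filter (fun x => F x = 0)).card * Fintype.card G = Fintype.card Ω := by
  classical
  have h1 : Fintype.card Ω = ∑ g : G, (univ.filter (fun x => F x = g)).card := by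
    rw [← card_univ]
    exact card_eq_sum_card_fiberwise (fun A _ => mem_coe.2 (mem_univ _))
  have h2 : ∀ g : G, (univ.filter (fun x => F x = g)).card
      = (univ.filter (fun x => F x = 0)).card := fun g =>
    AddMonoidHom.card_fiber_eq_of_mem_range F (hF g) (hF 0)
  rw [h1, sum_congr rfl (fun g _ => h2 g), sum_const, smul_eq_mul, mul_comm, card_univ]

variable {N : ℕ} {K : Type} [AddCommGroup K] [Fintype K] [DecidableEq K]

/-- the sum over a set of indices -/
def FF (K : Type) [AddCommGroup K] {N : ℕ} (γ : Finset (Fin N)) : (Fin N → K) →+ K where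
  toFun z := ∑ i ∈ γ, z i
  map_zero' := by simp
  map_add' z w := by simp [sum_add_distrib]

lemma FF_apply (γ : Finset (Fin N)) (z : Fin N → K) : FF K γ z = ∑ i ∈ γ, z i := rfl

lemma FF_single (γ : Finset (Fin N)) (i : Fin N) (a : K) :
    FF K γ (Pi.single i a) = if i ∈ γ then a else 0 := by
  rw [FF_apply]
  by_cases h : i ∈ γ
  · rw [if_pos h, sum_eq_single i]
    · simp
    · intro j _ hj
      simp [hj]
    · intro h'
      exact absurd h h'
  · rw [if_neg h]
    refine sum_eq_zero fun j hj => ?_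
    have : j ≠ i := fun h' => h (h' ▸ hj)
    simp [this]

lemma FF_surj {γ : Finset (Fin N)} (h : γ.Nonempty) : Function.Surjective (FF K γ) := by
  obtain ⟨i, hi⟩ := h
  intro a
  exact ⟨Pi.single i a, by rw [FF_single, if_pos hi]⟩

lemma FF_surj2 {γ γ' : Finset (Fin N)} {i : Fin N} (h1 : i ∈ γ) (h2 : i ∉ γ')
    (h' : γ'.Nonempty) (a b : K) : ∃ z, FF K γ z = a ∧ FF K γ' z = b := by
  obtain ⟨i', hi'⟩ := h'
  refine ⟨Pi.single i' b + Pi.single i (a - if i' ∈ γ then b else 0), ?_, ?_⟩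
  · rw [map_add, FF_single, FF_single, if_pos h1]
    abel
  · rw [map_add, FF_single, FF_single, if_pos hi', if_neg h2, add_zero]

lemma pair_surj {γ γ' : Finset (Fin N)} (h : γ.Nonempty) (h' : γ'.Nonempty) (hne : γ ≠ γ') :
    Function.Surjective ((FF K γ).prod (FF K γ')) := by
  rintro ⟨a, b⟩
  by_cases hs : γ ⊆ γ'
  · have : ¬ γ' ⊆ γ := fun h3 => hne (Subset.antisymm hs h3)
    obtain ⟨i, hi, hi'⟩ := Finset.not_subset.1 this
    obtain ⟨z, h1, h2⟩ := FF_surj2 hi hi' h b a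
    exact ⟨z, by rw [AddMonoidHom.prod_apply, h1, h2]⟩
  · obtain ⟨i, hi, hi'⟩ := Finset.not_subset.1 hs
    obtain ⟨z, h1, h2⟩ := FF_surj2 hi hi' h' a b
    exact ⟨z, by rw [AddMonoidHom.prod_apply, h1, h2]⟩

/-- indicator of a zero sum -/
noncomputable def zi (γ : Finset (Fin N)) (z : Fin N → K) : ℝ := if FF K γ z = 0 then 1 else 0

lemma sum_zi {γ : Finset (Fin N)} (h : γ.Nonempty) :
    ∑ z : Fin N → K, zi γ z = (Fintype.card (Fin N → K) : ℝ) / Fintype.card K := by
  have h1 := card_ker (FF K γ) (FF_surj h)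
  have h2 : (0 : ℝ) < Fintype.card K := by exact_mod_cast Fintype.card_pos
  rw [eq_div_iff h2.ne', ← h1]
  unfold zi
  rw [sum_boole]
  push_cast
  rfl

lemma sum_zi2 {γ γ' : Finset (Fin N)} (h : γ.Nonempty) (h' : γ'.Nonempty) :
    ∑ z : Fin N → K, zi γ z * zi γ' z
      = (Fintype.card (Fin N → K) : ℝ) * ((1 / (Fintype.card K : ℝ)) ^ 2
        + if γ = γ' then 1 / (Fintype.card K : ℝ) - (1 / (Fintype.card K : ℝ)) ^ 2 else 0) := by
  have h2 : (0 : ℝ) < Fintype.card K := by exact_mod_cast Fintype.card_pos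
  by_cases he : γ = γ'
  · subst he
    have h3 : ∀ z : Fin N → K, zi γ z * zi γ z = zi γ z := by
      intro z; unfold zi; split_ifs <;> simp
    simp only [h3, if_true]
    rw [sum_zi h]
    ring
  · rw [if_neg he]
    have h1 := card_ker ((FF K γ).prod (FF K γ')) (pair_surj h h' he)
    rw [Fintype.card_prod] at h1
    have h3 : ∀ z : Fin N → K, zi γ z * zi γ' z
        = if ((FF K γ).prod (FF K γ')) z = 0 then 1 else 0 := by
      intro z
      unfold zi
      rw [AddMonoidHom.prod_apply]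
      by_cases a : FF K γ z = 0 <;> by_cases b : FF K γ' z = 0 <;> simp [a, b]
    simp only [h3]
    rw [sum_boole, ← h1]
    push_cast
    field_simp
    ring

/-- variance -/
lemma var_le (G : Finset (Finset (Fin N))) (hG : ∀ γ ∈ G, γ.Nonempty) :
    ∑ z : Fin N → K, (∑ γ ∈ G, zi γ z - (G.card : ℝ) / Fintype.card K) ^ 2
      ≤ (Fintype.card (Fin N → K) : ℝ) * G.card := by
  have h2 : (0 : ℝ) < Fintype.card K := by exact_mod_cast Fintype.card_pos
  set p : ℝ := 1 / (Fintype.card K : ℝ) with hp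
  set W : ℝ := (Fintype.card (Fin N → K) : ℝ) with hW
  have hW0 : 0 ≤ W := by rw [hW]; positivity
  have h3 : ∀ z : Fin N → K, (∑ γ ∈ G, zi γ z - (G.card : ℝ) / Fintype.card K) ^ 2
      = (∑ γ ∈ G, ∑ γ' ∈ G, zi γ z * zi γ' z) - 2 * (p * G.card) * (∑ γ ∈ G, zi γ z)
        + (p * G.card) ^ 2 := by
    intro z
    rw [← sum_mul_sum, hp]
    ring
  simp only [h3]
  rw [sum_add_distrib, sum_sub_distrib, ← mul_sum, sum_comm, sum_comm (s := univ) (t := G)]
  have h4 : ∀ γ ∈ G, ∑ z : Fin N → K, ∑ γ' ∈ G, zi γ z * zi γ' z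
      = W * (G.card * p ^ 2 + (p - p ^ 2)) := by
    intro γ hγ
    rw [sum_comm, sum_congr rfl (fun γ' hγ' => sum_zi2 (hG γ hγ) (hG γ' hγ')), ← mul_sum,
      sum_add_distrib, sum_const, sum_ite_eq, if_pos hγ, nsmul_eq_mul]
  rw [sum_congr rfl h4, sum_congr rfl (fun γ hγ => sum_zi (hG γ hγ)), sum_const, sum_const,
    sum_const, card_univ, nsmul_eq_mul, nsmul_eq_mul, nsmul_eq_mul]
  have h5 : W / (Fintype.card K : ℝ) = W * p := by rw [hp]; ring
  rw [h5, ← hW]
  have hp0 : 0 ≤ p := by rw [hp]; positivity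
  have hp1 : p ≤ 1 := by
    rw [hp, div_le_one h2]
    exact_mod_cast Fintype.card_pos
  have h6 : (0 : ℝ) ≤ G.card := by positivity
  nlinarith [mul_nonneg hW0 h6, mul_nonneg (mul_nonneg hW0 h6) (sq_nonneg p),
    mul_nonneg (mul_nonneg hW0 h6) (sub_nonneg.2 hp1)]

/-- one sequence is good for finitely many collections -/
lemma exists_seq (I : Finset ℕ) (G : ℕ → Finset (Finset (Fin N)))
    (hG : ∀ s ∈ I, ∀ γ ∈ G s, γ.Nonempty) (hG0 : ∀ s ∈ I, (G s).Nonempty) (η : ℝ) (hη : 0 ≤ η)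
    (h : ∑ s ∈ I, 1 / ((G s).card : ℝ) ≤ η ^ 2) :
    ∃ z : Fin N → K, ∀ s ∈ I, ∑ γ ∈ G s, zi γ z
      ≤ ((G s).card : ℝ) * (1 / Fintype.card K + η) := by
  classical
  have hpos : ∀ s ∈ I, (0 : ℝ) < (G s).card := fun s hs => by
    exact_mod_cast card_pos.2 (hG0 s hs)
  set W : ℝ := (Fintype.card (Fin N → K) : ℝ) with hW
  have h1 : ∑ z : Fin N → K, ∑ s ∈ I,
      (∑ γ ∈ G s, zi γ z - ((G s).card : ℝ) / Fintype.card K) ^ 2 / ((G s).card : ℝ) ^ 2
      ≤ ∑ _z : Fin N → K, ∑ s ∈ I, 1 / ((G s).card : ℝ) := by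
    rw [sum_comm, sum_const, card_univ, nsmul_eq_mul, mul_sum]
    refine sum_le_sum fun s hs => ?_
    rw [← sum_div, div_le_iff₀ (by have := hpos s hs; positivity)]
    refine (var_le (G s) (hG s hs)).trans (le_of_eq ?_)
    have := hpos s hs
    field_simp
  obtain ⟨z, -, hz⟩ := exists_le_of_sum_le (univ_nonempty (α := Fin N → K)) h1
  refine ⟨z, fun s hs => ?_⟩
  have h2 : (∑ γ ∈ G s, zi γ z - ((G s).card : ℝ) / Fintype.card K) ^ 2 / ((G s).card : ℝ) ^ 2
      ≤ η ^ 2 := by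
    refine le_trans ?_ (hz.trans h)
    exact single_le_sum (f := fun s => (∑ γ ∈ G s, zi γ z - ((G s).card : ℝ) / Fintype.card K) ^ 2
      / ((G s).card : ℝ) ^ 2) (fun s _ => by positivity) hs
  rw [← div_pow] at h2
  have h3 := abs_le_of_sq_le_sq h2 hη
  have h4 := (abs_le.1 h3).2
  have h5 := hpos s hs
  rw [div_le_iff₀ h5] at h4
  have h6 : ((G s).card : ℝ) * (1 / Fintype.card K + η)
      = ((G s).card : ℝ) / Fintype.card K + η * (G s).card := by ring
  linarith

end Pool.Agent.N630.PHC
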