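import Mathlib
import Pool.Agent.N630.PHC.Low
import Pool.Agent.N630.PHC.Mom

set_option autoImplicit false

/-!
# Families with few pairs: assembly
-/

namespace Pool.Agent.N630.PHC

open Finset Filter Topology

lemma asym (r M : ℕ) (η : ℝ) (hη : 0 < η) : ∃ N₀ : ℕ, ∀ N, N₀ ≤ N → r + M + 1 ≤ N ∧
    ∑ s ∈ Icc 1 M, 1 / ((N - r).choose s : ℝ) ≤ η ^ 2 ∧
    ∀ s ∈ Icc 1 M, (1 - η) * (N.choose s : ℝ) ≤ ((N - r).choose s : ℝ) := by
  have h1 : Tendsto (fun N : ℕ => ∑ s ∈ Icc 1 M, 1 / ((N - r).choose s : ℝ)) atTop (𝓝 0) := by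
    have : (0 : ℝ) = ∑ _s ∈ Icc 1 M, (0 : ℝ) := by simp
    rw [this]
    refine tendsto_finsetSum _ fun s hs => ?_
    rw [mem_Icc] at hs
    simp only [one_div]
    refine Tendsto.comp tendsto_inv_atTop_zero ?_
    -- binomials tend to infinity
    have h2 : Tendsto (fun N : ℕ => ((N - r + 1 - s : ℕ) : ℝ) / s.factorial) atTop atTop := by
      refine Tendsto.atTop_div_const (by positivity) ?_
      refine tendsto_natCast_atTop_atTop.comp ?_
      refine tendsto_atTop_atTop.2 fun b => ⟨b + r + s, fun N hN => by omega⟩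
    refine tendsto_atTop_mono' _ ?_ h2
    filter_upwards [eventually_ge_atTop (r + s)] with N hN
    have h3 := Nat.pow_le_choose (α := ℝ) s (N - r)
    refine le_trans ?_ h3
    have h4 : (1 : ℝ) ≤ ((N - r + 1 - s : ℕ) : ℝ) := by
      exact_mod_cast (by omega : 1 ≤ N - r + 1 - s)
    have h5 : ((N - r + 1 - s : ℕ) : ℝ) ≤ ((N - r + 1 - s : ℕ) : ℝ) ^ s :=
      le_self_pow₀ h4 (by omega)
    exact div_le_div_of_nonneg_right h5 (by positivity)
  have h2 : ∀ s ∈ Icc 1 M, ∀ᶠ N : ℕ in atTop,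
      (1 - η) * (N.choose s : ℝ) ≤ ((N - r).choose s : ℝ) := by
    intro s _
    have h3 : Tendsto (fun N : ℕ => (1 - ((r : ℝ) + s) / N) ^ s) atTop (𝓝 ((1 - 0) ^ s)) :=
      ((tendsto_const_nhds.sub (tendsto_const_div_atTop_nhds_zero_nat _))).pow s
    rw [sub_zero, one_pow] at h3
    have h4 : ∀ᶠ N : ℕ in atTop, 1 - η < (1 - ((r : ℝ) + s) / N) ^ s :=
      h3.eventually_const_lt (by linarith)
    filter_upwards [h4, eventually_ge_atTop (r + s + 1)] with N hN hN2
    have h5 := Nat.pow_le_choose (α := ℝ) s (N - r)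
    have h6 := Nat.choose_le_pow_div (α := ℝ) s N
    have hNp : (0 : ℝ) < N := by exact_mod_cast (by omega : 0 < N)
    have hf : (0 : ℝ) < (s.factorial : ℝ) := by positivity
    have h7 : (1 - ((r : ℝ) + s) / N) ^ s * ((N : ℝ) ^ s / s.factorial)
        ≤ ((N - r).choose s : ℝ) := by
      refine le_trans ?_ h5
      rw [← mul_div_assoc, ← mul_pow]
      refine div_le_div_of_nonneg_right ?_ hf.le
      have h8 : (1 - ((r : ℝ) + s) / N) * N = N - (r + s) := by field_simp
      rw [h8]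
      have h9 : ((N - r + 1 - s : ℕ) : ℝ) = (N : ℝ) - r + 1 - s := by
        rw [Nat.cast_sub (by omega), Nat.cast_add, Nat.cast_sub (by omega)]
        push_cast; ring
      rw [h9]
      have h10 : (r : ℝ) + s ≤ N := by exact_mod_cast (by omega : r + s ≤ N)
      exact pow_le_pow_left₀ (by linarith) (by linarith) _
    refine le_trans ?_ h7
    by_cases hη1 : 0 ≤ 1 - η
    · exact mul_le_mul hN.le h6 (by positivity) (hη1.trans hN.le)
    · push Not at hη1
      have h8 : (1 - η) * (N.choose s : ℝ) ≤ 0 :=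
        mul_nonpos_of_nonpos_of_nonneg hη1.le (by positivity)
      refine h8.trans ?_
      have h10 : (r : ℝ) + s ≤ N := by exact_mod_cast (by omega : r + s ≤ N)
      have h9 : 0 ≤ 1 - ((r : ℝ) + s) / N := by
        rw [sub_nonneg, div_le_one hNp]; exact h10
      positivity
  have h3 : ∀ᶠ N : ℕ in atTop, ∀ s ∈ Icc 1 M,
      (1 - η) * (N.choose s : ℝ) ≤ ((N - r).choose s : ℝ) :=
    (Filter.eventually_all_finset _).2 h2
  have h4 : ∀ᶠ N : ℕ in atTop, ∑ s ∈ Icc 1 M, 1 / ((N - r).choose s : ℝ) < η ^ 2 :=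
    h1.eventually_lt_const (by positivity)
  have h5 := (eventually_ge_atTop (r + M + 1)).and (h4.and h3)
  obtain ⟨N₀, hN₀⟩ := eventually_atTop.1 h5
  exact ⟨N₀, fun N hN => ⟨(hN₀ N hN).1, (hN₀ N hN).2.1.le, (hN₀ N hN).2.2⟩⟩

/-- the last `N - r` indices -/
def rest (N r : ℕ) : Finset (Fin N) := univ.filter (fun i => r ≤ i.val)

lemma card_rest (N r : ℕ) : (rest N r).card = N - r := by
  unfold rest
  rw [card_filter, Fin.sum_univ_eq_sum_range (fun i => if r ≤ i then 1 else 0) N, ← card_filter]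
  have : (range N).filter (fun i => r ≤ i) = Ico r N := by
    ext i
    simp only [mem_filter, mem_range, mem_Ico]
    tauto
  rw [this, Nat.card_Ico]

/-- the sequence with the special values at the first `r` indices -/
def spec {N r d : ℕ} (z : Fin N → Fin r → Fin d → ZMod 2) (i : Fin N) : Fin r → Fin d → ZMod 2 :=
  if i.val < r then (fun j _ => if j.val = i.val then 1 else 0) else z i

open Classical in
/-- the family -/
noncomputable def fam {N r d : ℕ} (z : Fin N → Fin r → Fin d → ZMod 2) :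
    Finset (Finset (Fin d → Fin N)) :=
  univ.filter (fun A => ∀ j : Fin r, ∑ c ∈ A, th (fun i => spec z i j) c = 0)

lemma spec_delta {N r d : ℕ} (hd : 1 ≤ d) (hr : r ≤ N) (z : Fin N → Fin r → Fin d → ZMod 2)
    (j j' : Fin r) : th (fun i => spec z i j) (fun _ : Fin d => (⟨j'.val, by omega⟩ : Fin N))
      = if j = j' then 1 else 0 := by
  rw [th_const]
  unfold spec
  rw [if_pos j'.2]
  by_cases h : j = j'
  · rw [if_pos h]
    refine qf_ne fun h' => ?_
    have := congrFun h' ⟨0, hd⟩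
    simp only [h, if_true, Pi.zero_apply] at this
    exact absurd this (by decide)
  · rw [if_neg h]
    have h' : ¬ j.val = j'.val := fun hh => h (Fin.ext hh)
    simp only [if_neg h']
    exact qf_zero

lemma card_fam {N r d : ℕ} (hd : 1 ≤ d) (hr : r ≤ N) (z : Fin N → Fin r → Fin d → ZMod 2) :
    2 ^ r * (fam z).card = 2 ^ (N ^ d) := by
  classical
  have h := half (fun j => th (fun i => spec z i j))
    (fun j' => (fun _ : Fin d => (⟨j'.val, by omega⟩ : Fin N))) (spec_delta hd hr z) ∅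
    (fun j => notMem_empty _)
  have h1 : (univ.filter (fun A : Finset (Fin d → Fin N) => Disjoint A ∅ ∧
      ∀ j : Fin r, ∑ c ∈ A, th (fun i => spec z i j) c = 0)) = fam z := by
    unfold fam
    ext A
    simp
  have h2 := card_disj (∅ : Finset (Fin d → Fin N))
  rw [h1, h2, card_empty, Nat.sub_zero, Fintype.card_fun, Fintype.card_fin, Fintype.card_fin]
    at h
  rw [mul_comm]
  exact h

lemma cnt_le {N d : ℕ} (S : Finset (Finset (Fin d → Fin N))) (γ : Finset (Fin N)) (s : ℕ)
    (hs : γ.card = s) : cnt S γ ≤ 2 ^ (N ^ d - s ^ d) := by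
  classical
  have h := card_disj (cube d γ)
  rw [card_cube, hs, Fintype.card_fun, Fintype.card_fin, Fintype.card_fin] at h
  refine le_trans ?_ (le_of_eq h)
  unfold cnt
  refine card_le_card fun A hA => ?_
  rw [mem_filter] at hA ⊢
  exact ⟨mem_univ _, hA.2.1⟩

lemma cnt_fam {N r d : ℕ} (hd : 1 ≤ d) (hr : r ≤ N) (z : Fin N → Fin r → Fin d → ZMod 2)
    (γ : Finset (Fin N)) (hγ : γ ⊆ rest N r) (s : ℕ) (hs : γ.card = s) :
    (cnt (fam z) γ : ℝ) ≤ zi γ z * ((1 / 2) ^ r * 2 ^ (N ^ d - s ^ d)) := by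
  classical
  have hC : ∀ j' : Fin r, (fun _ : Fin d => (⟨j'.val, by omega⟩ : Fin N)) ∉ cube d γ := by
    intro j' h
    rw [cube, Fintype.mem_piFinset] at h
    have := hγ (h ⟨0, hd⟩)
    unfold rest at this
    rw [mem_filter] at this
    have h2 := this.2
    have h3 := j'.2
    simp only at h2
    omega
  have h := half (fun j => th (fun i => spec z i j))
    (fun j' => (fun _ : Fin d => (⟨j'.val, by omega⟩ : Fin N))) (spec_delta hd hr z) (cube d γ) hC
  have h2 := card_disj (cube d γ)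
  rw [card_cube, hs, Fintype.card_fun, Fintype.card_fin, Fintype.card_fin] at h2
  rw [h2] at h
  have hsum : ∀ j : Fin r, ∑ c ∈ cube d γ, th (fun i => spec z i j) c = qf ((∑ i ∈ γ, z i) j) := by
    intro j
    rw [sum_cube, Finset.sum_apply]
    congr 1
    refine sum_congr rfl fun i hi => ?_
    have := hγ hi
    unfold rest at this
    rw [mem_filter] at this
    unfold spec
    rw [if_neg (by omega)]
  unfold zi
  by_cases hz : FF (Fin r → Fin d → ZMod 2) γ z = 0
  · rw [if_pos hz, one_mul]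
    have h3 : cnt (fam z) γ ≤ (univ.filter (fun A : Finset (Fin d → Fin N) =>
        Disjoint A (cube d γ) ∧ ∀ j : Fin r, ∑ c ∈ A, th (fun i => spec z i j) c = 0)).card := by
      unfold cnt
      refine card_le_card fun A hA => ?_
      rw [mem_filter] at hA ⊢
      refine ⟨mem_univ _, hA.2.1, ?_⟩
      have := hA.2.2.1
      unfold fam at this
      exact (mem_filter.1 this).2
    have h4 : ((univ.filter (fun A : Finset (Fin d → Fin N) =>
        Disjoint A (cube d γ) ∧ ∀ j : Fin r, ∑ c ∈ A, th (fun i => spec z i j) c = 0)).card : ℝ)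
        * 2 ^ r = 2 ^ (N ^ d - s ^ d) := by exact_mod_cast h
    have h5 : (cnt (fam z) γ : ℝ) ≤ ((univ.filter (fun A : Finset (Fin d → Fin N) =>
        Disjoint A (cube d γ) ∧ ∀ j : Fin r, ∑ c ∈ A, th (fun i => spec z i j) c = 0)).card : ℝ) := by
      exact_mod_cast h3
    rw [← h4, one_div, inv_pow, mul_comm, mul_assoc, mul_inv_cancel₀ (by positivity), mul_one]
    exact h5
  · rw [if_neg hz, zero_mul]
    have h3 : cnt (fam z) γ = 0 := by
      unfold cnt
      rw [card_eq_zero, filter_eq_empty_iff]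
      rintro A - ⟨hA, hA1, hA2⟩
      unfold fam at hA1 hA2
      have a1 := (mem_filter.1 hA1).2
      have a2 := (mem_filter.1 hA2).2
      apply hz
      rw [FF_apply]
      funext j
      by_contra hj
      have a3 := a2 j
      rw [sum_union hA, a1 j, zero_add, hsum j, qf_ne hj] at a3
      exact absurd a3 (by decide)
    rw [h3]
    simp

theorem lower {d : ℕ} (hd : 1 ≤ d) (r M : ℕ) (ε : ℝ) (hε : 0 < ε) : ∃ N₀ : ℕ, ∀ N : ℕ, N₀ ≤ N →
    ∃ S : Finset (Finset (Fin d → Fin N)), 2 ^ r * S.card = 2 ^ (N ^ d) ∧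
      ∀ s, 1 ≤ s → s ≤ M → freq s S ≤ (1 / 2) ^ (r * (d + 1)) + ε := by
  classical
  obtain ⟨N₀, hN₀⟩ := asym r M (ε / 2) (by positivity)
  refine ⟨N₀, fun N hN => ?_⟩
  obtain ⟨hNr, hsum, hrat⟩ := hN₀ N hN
  have hr : r ≤ N := by omega
  have hcard : ∀ s, (powersetCard s (rest N r)).card = (N - r).choose s := fun s => by
    rw [card_powersetCard, card_rest]
  obtain ⟨z, hz⟩ := exists_seq (K := Fin r → Fin d → ZMod 2) (Icc 1 M)
    (fun s => powersetCard s (rest N r)) (fun s hs γ hγ => by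
      rw [mem_powersetCard] at hγ
      rw [mem_Icc] at hs
      exact card_pos.1 (by omega)) (fun s hs => by
      rw [mem_Icc] at hs
      refine card_pos.1 ?_
      rw [hcard]
      exact Nat.choose_pos (by omega)) (ε / 2) (by positivity) (by
      simp only [hcard]
      exact hsum)
  refine ⟨fam z, card_fam hd hr z, fun s hs1 hs2 => ?_⟩
  have hs : s ∈ Icc 1 M := mem_Icc.2 ⟨hs1, hs2⟩
  have hz' := hz s hs
  simp only [hcard] at hz'
  have hKc : (1 : ℝ) / (Fintype.card (Fin r → Fin d → ZMod 2) : ℝ) = (1 / 2) ^ (d * r) := by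
    rw [Fintype.card_fun, Fintype.card_fun, ZMod.card, Fintype.card_fin, Fintype.card_fin]
    push_cast
    rw [← pow_mul, one_div, one_div, inv_pow]
  rw [hKc] at hz'
  set T : ℝ := 2 ^ (N ^ d - s ^ d) with hT
  have hT0 : 0 < T := by rw [hT]; positivity
  have hch : (0 : ℝ) < (N.choose s : ℝ) := by
    exact_mod_cast Nat.choose_pos (by omega : s ≤ N)
  have hsub : powersetCard s (rest N r) ⊆ powersetCard s (univ : Finset (Fin N)) :=
    powersetCard_mono (subset_univ _)
  have h1 : ∑ γ ∈ powersetCard s (univ : Finset (Fin N)), (cnt (fam z) γ : ℝ)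
      ≤ (1 / 2) ^ r * T * (∑ γ ∈ powersetCard s (rest N r), zi γ z)
        + ((N.choose s : ℝ) - ((N - r).choose s : ℝ)) * T := by
    rw [← sum_sdiff hsub, add_comm]
    refine add_le_add ?_ ?_
    · rw [mul_sum]
      refine sum_le_sum fun γ hγ => ?_
      rw [mem_powersetCard] at hγ
      refine (cnt_fam hd hr z γ hγ.1 s hγ.2).trans (le_of_eq (by ring))
    · have h2 : ∀ γ ∈ powersetCard s (univ : Finset (Fin N)) \ powersetCard s (rest N r),
          (cnt (fam z) γ : ℝ) ≤ T := by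
        intro γ hγ
        rw [Finset.mem_sdiff, mem_powersetCard] at hγ
        have := cnt_le (fam z) γ s hγ.1.2
        rw [hT]
        exact_mod_cast this
      refine (sum_le_sum h2).trans (le_of_eq ?_)
      rw [sum_const, nsmul_eq_mul, card_sdiff_of_subset hsub, hcard, card_powersetCard, card_univ,
        Fintype.card_fin, Nat.cast_sub (Nat.choose_le_choose s (by omega))]
  have h3 : ((N - r).choose s : ℝ) ≤ (N.choose s : ℝ) := by
    exact_mod_cast Nat.choose_le_choose s (by omega)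
  have h4 := hrat s hs
  have hp0 : (0 : ℝ) ≤ (1 / 2) ^ (d * r) := by positivity
  have hq0 : (0 : ℝ) < (1 / 2) ^ r := by positivity
  have hq1 : ((1 : ℝ) / 2) ^ r ≤ 1 := pow_le_one₀ (by norm_num) (by norm_num)
  have hpq : ((1 : ℝ) / 2) ^ (r * (d + 1)) = (1 / 2) ^ r * (1 / 2) ^ (d * r) := by
    rw [← pow_add]
    congr 1
    ring
  rw [freq_eq, div_le_iff₀ (by positivity), ← hT]
  refine h1.trans ?_
  have h5 : (1 / 2) ^ r * T * (∑ γ ∈ powersetCard s (rest N r), zi γ z)
      ≤ (1 / 2) ^ r * T * ((N.choose s : ℝ) * ((1 / 2) ^ (d * r) + ε / 2)) := by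
    refine mul_le_mul_of_nonneg_left (hz'.trans ?_) (by positivity)
    exact mul_le_mul_of_nonneg_right h3 (by positivity)
  have h6 : ((N.choose s : ℝ) - ((N - r).choose s : ℝ)) * T ≤ (ε / 2 * (N.choose s : ℝ)) * T := by
    refine mul_le_mul_of_nonneg_right ?_ hT0.le
    linarith
  have h7 : (1 / 2) ^ r * T * ((N.choose s : ℝ) * ((1 / 2) ^ (d * r) + ε / 2))
      ≤ ((1 / 2) ^ (r * (d + 1)) + ε / 2) * ((N.choose s : ℝ) * T) := by
    rw [hpq]
    have h8 : ((1 : ℝ) / 2) ^ r * (ε / 2) ≤ ε / 2 := by nlinarith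
    have h9 : (0 : ℝ) ≤ (N.choose s : ℝ) * T := by positivity
    nlinarith [mul_le_mul_of_nonneg_right h8 h9]
  calc _ ≤ ((1 / 2) ^ (r * (d + 1)) + ε / 2) * ((N.choose s : ℝ) * T)
        + (ε / 2 * (N.choose s : ℝ)) * T := add_le_add (h5.trans h7) h6
    _ = ((1 / 2) ^ (r * (d + 1)) + ε) * ((N.choose s : ℝ) * T) := by ring

end Pool.Agent.N630.PHC
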