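import Mathlib
import Pool.Agent.N630.PHC.Def

set_option autoImplicit false

/-!
# Lower bound for the frequency of pairs
-/

namespace Pool.Agent.N630.PHC

open Finset Filter Topology Pool.Agent.TH7.DH Pool.Agent.R814.PHJ

variable {d : ℕ}

lemma mem_cube_map {N : ℕ} {ι : Type} [Fintype ι] (φ : ι ↪ Fin N) (c : Fin d → Fin N) :
    c ∈ cube d (univ.map φ) ↔ ∃ e : Fin d → ι, (fun t => φ (e t)) = c := by
  rw [cube, Fintype.mem_piFinset]
  constructor
  · intro hc
    have : ∀ t, ∃ x, φ x = c t := fun t => by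
      have := hc t
      rw [Finset.mem_map] at this
      obtain ⟨x, -, hx⟩ := this
      exact ⟨x, hx⟩
    choose e he using this
    exact ⟨e, funext he⟩
  · rintro ⟨e, rfl⟩ t
    exact mem_map_of_mem _ (mem_univ _)

lemma ow_false {N : ℕ} {ι : Type} [Fintype ι] (φ : ι ↪ Fin N) (A : Finset (Fin d → Fin N)) :
    ow φ (fun _ => False) A = A \ cube d (univ.map φ) := by
  ext c
  rw [mem_ow, Finset.mem_sdiff, mem_cube_map]
  simp only [and_false, exists_false, false_or]
  tauto

lemma ow_true {N : ℕ} {ι : Type} [Fintype ι] (φ : ι ↪ Fin N) (A : Finset (Fin d → Fin N)) :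
    ow φ (fun _ => True) A = A ∪ cube d (univ.map φ) := by
  ext c
  rw [mem_ow, Finset.mem_union, mem_cube_map]
  simp only [and_true]
  tauto

lemma av_pair {N : ℕ} {ι : Type} [Fintype ι] (φ : ι ↪ Fin N)
    (S : Finset (Finset (Fin d → Fin N))) :
    av (fun A => ind S (ow φ (fun _ => False) A) * ind S (ow φ (fun _ => True) A))
      = (cnt S (univ.map φ) : ℝ) / 2 ^ (N ^ d - (Fintype.card ι) ^ d) := by
  classical
  set C := cube d (univ.map φ) with hC
  have hCc : C.card = (Fintype.card ι) ^ d := by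
    rw [hC, card_cube, card_map, card_univ]
  have h1 := sum_plant (fun A : Finset (Fin d → Fin N) => ind S A * ind S (A ∪ C)) C ∅
    (empty_subset _)
  have h2 : ∀ A : Finset (Fin d → Fin N), ind S (ow φ (fun _ => False) A)
      * ind S (ow φ (fun _ => True) A) = ind S (A \ C ∪ ∅) * ind S (A \ C ∪ ∅ ∪ C) := by
    intro A
    rw [ow_false, ow_true, union_empty, sdiff_union_self_eq_union]
  have h3 : ∑ A : Finset (Fin d → Fin N), (if A ∩ C = ∅ then ind S A * ind S (A ∪ C) else 0)
      = (cnt S (univ.map φ) : ℝ) := by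
    unfold cnt
    rw [card_filter]
    push_cast
    refine sum_congr rfl fun A _ => ?_
    rw [← hC]
    unfold ind
    have hd := Finset.disjoint_iff_inter_eq_empty (s := A) (t := C)
    by_cases a : A ∩ C = ∅ <;> by_cases b : A ∈ S <;> by_cases c : A ∪ C ∈ S <;>
      simp [a, b, c, hd]
  have h4 : (C.card : ℕ) ≤ N ^ d := by
    have := card_le_univ C
    simpa using this
  unfold av
  simp only [h2]
  rw [h1, h3, Fintype.card_finset, Fintype.card_fun, Fintype.card_fin, Fintype.card_fin, ← hCc]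
  have h5 : (2 : ℝ) ^ (N ^ d) = 2 ^ C.card * 2 ^ (N ^ d - C.card) := by
    rw [← pow_add]
    congr 1
    omega
  push_cast
  rw [h5]
  field_simp

lemma fiber_emb {N : ℕ} {ι : Type} [Fintype ι] [DecidableEq ι] (γ : Finset (Fin N))
    (hγ : γ.card = Fintype.card ι) :
    (univ.filter (fun φ : ι ↪ Fin N => univ.map φ = γ)).card = (Fintype.card ι).factorial := by
  classical
  have e₀ : ι ≃ γ := Fintype.equivOfCardEq (by rw [Fintype.card_coe, hγ])
  rw [← Fintype.card_equiv e₀, ← card_univ]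
  symm
  refine card_bij (fun e _ => e.toEmbedding.trans (Function.Embedding.subtype _)) ?_ ?_ ?_
  · intro e _
    rw [mem_filter]
    refine ⟨mem_univ _, ?_⟩
    ext x
    simp only [Finset.mem_map, mem_univ, true_and, Function.Embedding.trans_apply,
      Equiv.coe_toEmbedding, Function.Embedding.subtype_apply]
    constructor
    · rintro ⟨i, rfl⟩
      exact (e i).2
    · intro hx
      exact ⟨e.symm ⟨x, hx⟩, by simp⟩
  · intro e _ e' _ h
    ext i
    have := DFunLike.congr_fun h i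
    have h2 : e i = e' i := by simpa using this
    rw [h2]
  · intro φ hφ
    rw [mem_filter] at hφ
    have hm : ∀ i, φ i ∈ γ := fun i => by
      rw [← hφ.2]
      exact mem_map_of_mem _ (mem_univ _)
    have hb : Function.Bijective (fun i => (⟨φ i, hm i⟩ : γ)) := by
      constructor
      · intro i j h
        simp only [Subtype.mk.injEq] at h
        exact φ.injective h
      · rintro ⟨x, hx⟩
        have hx' := hx
        rw [← hφ.2, Finset.mem_map] at hx'
        obtain ⟨i, -, hi⟩ := hx'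
        exact ⟨i, Subtype.ext hi⟩
    refine ⟨Equiv.ofBijective _ hb, mem_univ _, ?_⟩
    ext i
    rfl

lemma av_emb {N : ℕ} {ι : Type} [Fintype ι] [DecidableEq ι] (hN : Fintype.card ι ≤ N)
    (G : Finset (Fin N) → ℝ) :
    av (fun φ : ι ↪ Fin N => G (univ.map φ))
      = (∑ γ ∈ powersetCard (Fintype.card ι) (univ : Finset (Fin N)), G γ)
        / (N.choose (Fintype.card ι) : ℝ) := by
  classical
  have h1 : ∑ φ : ι ↪ Fin N, G (univ.map φ)
      = ∑ γ ∈ powersetCard (Fintype.card ι) (univ : Finset (Fin N)),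
        ∑ φ ∈ univ.filter (fun φ : ι ↪ Fin N => univ.map φ = γ), G (univ.map φ) := by
    rw [Finset.sum_fiberwise_of_maps_to (g := fun φ : ι ↪ Fin N => univ.map φ)]
    intro φ _
    rw [mem_powersetCard]
    exact ⟨subset_univ _, by rw [card_map, card_univ]⟩
  have h2 : ∀ γ ∈ powersetCard (Fintype.card ι) (univ : Finset (Fin N)),
      ∑ φ ∈ univ.filter (fun φ : ι ↪ Fin N => univ.map φ = γ), G (univ.map φ)
        = (Fintype.card ι).factorial * G γ := by
    intro γ hγ
    rw [mem_powersetCard] at hγ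
    rw [sum_congr rfl (g := fun _ => G γ) (fun φ hφ => by rw [(mem_filter.1 hφ).2]), sum_const,
      fiber_emb γ hγ.2, nsmul_eq_mul]
  unfold av
  rw [h1, sum_congr rfl h2, ← mul_sum, Fintype.card_embedding_eq, Fintype.card_fin,
    Nat.descFactorial_eq_factorial_mul_choose]
  have h3 : ((Fintype.card ι).factorial : ℝ) ≠ 0 := by exact_mod_cast Nat.factorial_ne_zero _
  have h4 : (N.choose (Fintype.card ι) : ℝ) ≠ 0 := by
    exact_mod_cast (Nat.choose_pos hN).ne'
  push_cast
  field_simp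

lemma KN_eq {N : ℕ} {ι : Type} [Fintype ι] [DecidableEq ι] (hN : Fintype.card ι ≤ N)
    (S : Finset (Finset (Fin d → Fin N))) :
    KN N (fun A => ind S A) (fun A => ind S A) ι (fun _ => False) (fun _ => True)
      = freq (Fintype.card ι) S := by
  classical
  unfold KN
  simp only [av_pair]
  rw [av_emb hN (fun γ => (cnt S γ : ℝ) / 2 ^ (N ^ d - (Fintype.card ι) ^ d)), freq_eq,
    ← sum_div, div_div, mul_comm ((2 : ℝ) ^ _)]

/-- the density of a family -/
noncomputable def dens {N : ℕ} (S : Finset (Finset (Fin d → Fin N))) : ℝ :=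
  (S.card : ℝ) / 2 ^ (N ^ d)

lemma dens_eq {N : ℕ} (S : Finset (Finset (Fin d → Fin N))) : av (fun A => ind S A) = dens S := by
  classical
  rw [av_ind, dens, Fintype.card_finset, Fintype.card_fun, Fintype.card_fin, Fintype.card_fin]
  push_cast
  rfl

/-- the lower bound -/
noncomputable def gg (d : ℕ) (D : ℝ) : ℝ :=
  (2 - 1 / 2 ^ (d - 1)) * D ^ 2 - (1 - 1 / 2 ^ (d - 1)) * D

theorem upper (hd : 1 ≤ d) (ε : ℝ) (hε : 0 < ε) : ∃ M N₀ : ℕ, ∀ N : ℕ, N₀ ≤ N →
    ∀ S : Finset (Finset (Fin d → Fin N)), ∃ s, 1 ≤ s ∧ s ≤ M ∧ gg d (dens S) - ε ≤ freq s S := by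
  classical
  by_contra hcon
  push Not at hcon
  let Bad : ℕ → ℕ → Prop := fun N M => ∃ S : Finset (Finset (Fin d → Fin N)),
    ∀ s, 1 ≤ s → s ≤ M → freq s S < gg d (dens S) - ε
  have hbad : ∀ j, ∃ N, j ≤ N ∧ Bad N j := fun j => by
    obtain ⟨N, hN, S, hS⟩ := hcon j j
    exact ⟨N, hN, S, hS⟩
  choose Ns hNs hNb using hbad
  let L : ℕ → ℕ := fun N => Nat.findGreatest (Bad N) N
  have hL : ∀ N, Bad N (L N) := fun N =>
    Nat.findGreatest_spec (P := Bad N) (Nat.zero_le N) ⟨∅, fun s h1 h2 => by omega⟩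
  have hL2 : ∀ j, j ≤ L (Ns j) := fun j => Nat.le_findGreatest (hNs j) (hNb j)
  choose S hS using hL
  let V : Ultrafilter ℕ := (hyperfilter ℕ).map Ns
  have hNs' : Tendsto Ns atTop atTop := tendsto_atTop_mono hNs tendsto_id
  have hh : (hyperfilter ℕ : Filter ℕ) ≤ atTop := by
    rw [← Nat.cofinite_eq_atTop]
    exact hyperfilter_le_cofinite
  have hV : (V : Filter ℕ) ≤ atTop := by
    rw [Ultrafilter.coe_map]
    exact (hNs'.mono_left hh)
  set R := raw V hV S with hR
  set D := R.v with hD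
  have hD0 : 0 ≤ D := R.v_nonneg rfl
  have hD1 : D ≤ 1 := (abs_le.1 (R.K_abs Empty (fun _ => True) (fun _ => True))).2
  have hdens : Tendsto (fun N => dens (S N)) V (𝓝 D) := by
    refine (R.tendsto Empty (fun _ => True) (fun _ => True)).congr fun N => ?_
    unfold KN
    have h3 : ∀ φ : Empty ↪ Fin N, av (fun A => R.h₁ N (ow φ (fun _ => True) A)
        * R.h₂ N (ow φ (fun _ => True) A)) = av (fun A => ind (S N) A) := by
      intro φ
      congr 1
      funext A
      rw [ow_empty hd]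
      change ind (S N) A * ind (S N) A = _
      rw [ind_mul_self]
    simp only [h3]
    have : Nonempty (Empty ↪ Fin N) := ⟨⟨Empty.elim, fun x => x.elim⟩⟩
    rw [av_const, dens_eq]
  have hfreq : ∀ s : ℕ, Tendsto (fun N => freq (s + 1) (S N)) V
      (𝓝 (R.K (Empty ⊕ Fin (s + 1)) (fun _ => False) (fun _ => True))) := by
    intro s
    refine (R.tendsto (Empty ⊕ Fin (s + 1)) (fun _ => False) (fun _ => True)).congr' ?_
    have : ∀ᶠ N in (V : Filter ℕ), s + 1 ≤ N := hV (eventually_ge_atTop _)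
    filter_upwards [this] with N hN
    have hc : Fintype.card (Empty ⊕ Fin (s + 1)) = s + 1 := by simp
    have h4 := KN_eq (d := d) (N := N) (ι := Empty ⊕ Fin (s + 1)) (by rw [hc]; exact hN) (S N)
    rw [hc] at h4
    exact h4
  have hle : ∀ s : ℕ, R.K (Empty ⊕ Fin (s + 1)) (fun _ => False) (fun _ => True)
      ≤ gg d D - ε := by
    intro s
    have hg : Tendsto (fun N => gg d (dens (S N)) - ε) V (𝓝 (gg d D - ε)) := by
      unfold gg
      exact (((hdens.pow 2).const_mul _).sub (hdens.const_mul _)).sub_const _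
    refine le_of_tendsto_of_tendsto (hfreq s) hg ?_
    have h5 : ∀ᶠ j in (hyperfilter ℕ : Filter ℕ), freq (s + 1) (S (Ns j))
        ≤ gg d (dens (S (Ns j))) - ε := by
      have : ∀ᶠ j in (hyperfilter ℕ : Filter ℕ), s + 1 ≤ j := hh (eventually_ge_atTop _)
      filter_upwards [this] with j hj
      exact (hS (Ns j) (s + 1) (by omega) (hj.trans (hL2 j))).le
    change ∀ᶠ N in (V : Filter ℕ), freq (s + 1) (S N) ≤ gg d (dens (S N)) - ε
    rw [Ultrafilter.coe_map]
    exact h5
  set C := cen V hV S D hD0 hD1 with hC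
  have hCK := fun (ι : Type) [Fintype ι] (P Q : (Fin d → ι) → Prop) =>
    cen_K (V := V) (hV := hV) (S := S) hd hD0 hD1 rfl ι P Q
  have hv : C.v = D - D ^ 2 := hCK Empty _ _
  have hκ0 : C.κ 0 Empty (fun _ => 0) 0 = C.v := by
    refine C.K_same _ hd _ _ fun c => ?_
    have : IsEmpty (Empty ⊕ Fin 0) := by infer_instance
    exact isEmptyElim (c ⟨0, hd⟩)
  have hκ : ∀ s, C.κ 0 Empty (fun _ => 0) (s + 1) ≤ gg d D - ε - D ^ 2 := by
    intro s
    have h1 : C.κ 0 Empty (fun _ => 0) (s + 1)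
        = C.K (Empty ⊕ Fin (s + 1)) (fun _ => False) (fun _ => True) := by
      refine C.K_congr (fun c => ?_) fun _ => Iff.rfl
      simp [Hit]
    rw [h1, hCK]
    have := hle s
    linarith
  have hmean : mean (C.κ 0 Empty (fun _ => 0)) ≤ gg d D - ε - D ^ 2 := by
    rw [← mean_shift 1 (C.κ_bdd 0 Empty (fun _ => 0))]
    refine (mean_mono ((C.κ_bdd 0 Empty (fun _ => 0)).shift 1) (bdd_const _) hκ).trans
      (le_of_eq (mean_const _))
  have hmain := C.main rfl hd d le_rfl Empty (fun _ => 0) (fun x => x.elim)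
  rw [Nat.sub_self, hκ0, hv] at hmain
  have h1 := (abs_le.1 hmain).1
  obtain ⟨e, rfl⟩ : ∃ e, d = e + 1 := ⟨d - 1, by omega⟩
  have h4 : ((1 : ℝ) / 2) ^ (e + 1) = (1 / 2 ^ e) / 2 := by
    rw [div_pow, one_pow, pow_succ, div_div]
  rw [h4] at h1
  unfold gg at hmean
  rw [Nat.add_sub_cancel] at hmean
  set c : ℝ := 1 / 2 ^ e with hc
  nlinarith

end Pool.Agent.N630.PHC
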